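import Pool.Agent.H64.EV.Targets

/-!
# Complete intersections of even dimension (MP_fd35e1_ag): row DEC, derivations and the calculus
-/

set_option autoImplicit false

open Matrix Pool.Agent.H64.CC Pool.Agent.H2.NL Pool.Agent.H64.EV

namespace Pool.Agent.H50.EV

section

variable {K : Type} [Field K] {I : Type} [Fintype I]

omit [Fintype I] in
private theorem sw_add' (o : I → Bool) (j : ℕ) : ∀ (f g : List I → K) (w : List I),
    sw o j (fun l => f l + g l) w = sw o j f w + sw o j g w := by
  induction j with
  | zero =>
    intro f g w
    match w with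
    | [] => rfl
    | [a] => rfl
    | a :: b :: l => exact mul_add _ _ _
  | succ j ih =>
    intro f g w
    match w with
    | [] => rfl
    | a :: l => exact ih _ _ l

private theorem sw_sum' (o : I → Bool) (j : ℕ) : ∀ (c : I → K) (f : I → List I → K) (w : List I),
    sw o j (fun l => ∑ b, c b * f b l) w = ∑ b, c b * sw o j (f b) w := by
  induction j with
  | zero =>
    intro c f w
    match w with
    | [] => rfl
    | [a] => rfl
    | a :: b :: l =>
      show ks K (o a) (o b) * ∑ x, c x * f x (b :: a :: l) =
        ∑ x, c x * (ks K (o a) (o b) * f x (b :: a :: l))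
      rw [Finset.mul_sum]
      exact Finset.sum_congr rfl fun x _ => by ring
  | succ j ih =>
    intro c f w
    match w with
    | [] => rfl
    | a :: l => exact ih c (fun b l' => f b (a :: l')) l

private theorem con_add' (η : Matrix I I K) (j : ℕ) : ∀ (f g : List I → K) (w : List I),
    con η j (fun l => f l + g l) w = con η j f w + con η j g w := by
  induction j with
  | zero =>
    intro f g w
    show ∑ a, ∑ b, η a b * (f (a :: b :: w) + g (a :: b :: w)) =
      (∑ a, ∑ b, η a b * f (a :: b :: w)) + ∑ a, ∑ b, η a b * g (a :: b :: w)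
    simp only [mul_add, Finset.sum_add_distrib]
  | succ j ih =>
    intro f g w
    match w with
    | [] => exact (add_zero _).symm
    | a :: l => exact ih _ _ l

private theorem con_sum' (η : Matrix I I K) (j : ℕ) : ∀ (c : I → K) (f : I → List I → K)
    (w : List I), con η j (fun l => ∑ b, c b * f b l) w = ∑ b, c b * con η j (f b) w := by
  induction j with
  | zero =>
    intro c f w
    show ∑ a, ∑ b, η a b * ∑ x, c x * f x (a :: b :: w) =
      ∑ x, c x * ∑ a, ∑ b, η a b * f x (a :: b :: w)
    simp only [Finset.mul_sum]
    have h1 : ∀ a, ∑ b, ∑ x, η a b * (c x * f x (a :: b :: w)) =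
        ∑ x, ∑ b, c x * (η a b * f x (a :: b :: w)) := by
      intro a
      rw [Finset.sum_comm]
      exact Finset.sum_congr rfl fun x _ => Finset.sum_congr rfl fun b _ => by ring
    rw [Finset.sum_congr rfl fun a _ => h1 a, Finset.sum_comm]
  | succ j ih =>
    intro c f w
    match w with
    | [] =>
      show (0 : K) = ∑ b, c b * 0
      simp
    | a :: l => exact ih c (fun b l' => f b (a :: l')) l

private theorem der_add' (T : Matrix I I K) (f g : List I → K) (w : List I) :
    der T (fun l => f l + g l) w = der T f w + der T g w := der_add T w f g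

private theorem der_smul' (T : Matrix I I K) (s : K) (f : List I → K) (w : List I) :
    der T (fun l => s * f l) w = s * der T f w := der_smul T s w f

private theorem der_zero' (T : Matrix I I K) (w : List I) : der T (fun _ => (0 : K)) w = 0 := by
  have h := der_smul' T 0 (fun _ => 0) w
  simpa using h

private theorem der_sum' (T : Matrix I I K) {J : Type} (S : Finset J) (f : J → List I → K)
    (w : List I) : der T (fun l => ∑ b ∈ S, f b l) w = ∑ b ∈ S, der T (f b) w := by
  classical
  induction S using Finset.induction_on with
  | empty =>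
    simp only [Finset.sum_empty]
    exact der_zero' T w
  | insert x S hx ih =>
    simp only [Finset.sum_insert hx]
    rw [der_add', ih]

private theorem der_cons (T : Matrix I I K) (t : List I → K) (a : I) (l : List I) :
    der T t (a :: l) = ∑ b, T a b * t (b :: l) + der T (fun l' => t (a :: l')) l := rfl

private theorem ks_T {T : Matrix I I K} {o : I → Bool} (hT : ∀ a b, T a b ≠ 0 → o a = o b)
    (a b : I) (p : Bool) (x : K) : T a b * (ks K (o b) p * x) = ks K (o a) p * (T a b * x) := by
  by_cases h : T a b = 0
  · rw [h]; ring
  · rw [hT a b h]; ring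

private theorem ks_T' {T : Matrix I I K} {o : I → Bool} (hT : ∀ a b, T a b ≠ 0 → o a = o b)
    (a b : I) (p : Bool) (x : K) : T a b * (ks K p (o b) * x) = ks K p (o a) * (T a b * x) := by
  by_cases h : T a b = 0
  · rw [h]; ring
  · rw [hT a b h]; ring

private theorem der_sw (o : I → Bool) (T : Matrix I I K) (hT : ∀ a b, T a b ≠ 0 → o a = o b)
    (j : ℕ) : ∀ (t : List I → K) (w : List I), j + 2 ≤ w.length →
    der T (sw o j t) w = sw o j (der T t) w := by
  induction j with
  | zero =>
    intro t w hw
    match w, hw with
    | a :: b :: l, _ =>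
      have h1 : der T (sw o 0 t) (a :: b :: l) =
          ∑ c, T a c * (ks K (o c) (o b) * t (b :: c :: l)) +
          (∑ c, T b c * (ks K (o a) (o c) * t (c :: a :: l)) +
            der T (fun l' => ks K (o a) (o b) * t (b :: a :: l')) l) := rfl
      have h2 : sw o 0 (der T t) (a :: b :: l) = ks K (o a) (o b) *
          (∑ c, T b c * t (c :: a :: l) + (∑ c, T a c * t (b :: c :: l) +
            der T (fun l' => t (b :: a :: l')) l)) := rfl
      rw [h1, h2, der_smul', mul_add, mul_add, Finset.mul_sum, Finset.mul_sum]
      rw [Finset.sum_congr rfl fun c _ => ks_T hT a c (o b) (t (b :: c :: l)),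
        Finset.sum_congr rfl fun c _ => ks_T' hT b c (o a) (t (c :: a :: l))]
      ring
  | succ j ih =>
    intro t w hw
    match w, hw with
    | a :: l, hw =>
      have hl : j + 2 ≤ l.length := by simpa using hw
      have h1 : der T (sw o (j + 1) t) (a :: l) =
          ∑ b, T a b * sw o j (fun l' => t (b :: l')) l +
            der T (sw o j (fun l' => t (a :: l'))) l := rfl
      have h2 : sw o (j + 1) (der T t) (a :: l) = sw o j (fun l' =>
          ∑ b, T a b * t (b :: l') + der T (fun l'' => t (a :: l'')) l') l := rfl
      rw [h1, h2, sw_add', sw_sum' o j (fun b => T a b) (fun b l' => t (b :: l')), ih _ l hl]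

private theorem der_con (η T : Matrix I I K) (h : Tᵀ * η + η * T = 0) (j : ℕ) :
    ∀ (t : List I → K) (w : List I), j ≤ w.length →
    der T (con η j t) w = con η j (der T t) w := by
  induction j with
  | zero =>
    intro t w _
    have h1 : der T (con η 0 t) w = ∑ a, ∑ b, η a b * der T (fun l => t (a :: b :: l)) w := by
      have e : con η 0 t = fun l => ∑ a, ∑ b, η a b * t (a :: b :: l) := by
        funext l; rfl
      rw [e, der_sum' T Finset.univ (fun a l => ∑ b, η a b * t (a :: b :: l))]
      refine Finset.sum_congr rfl fun a _ => ?_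
      rw [der_sum' T Finset.univ (fun b l => η a b * t (a :: b :: l))]
      exact Finset.sum_congr rfl fun b _ => der_smul' T _ _ w
    have h2 : con η 0 (der T t) w = ∑ a, ∑ b, η a b * (∑ c, T a c * t (c :: b :: w) +
        (∑ c, T b c * t (a :: c :: w) + der T (fun l => t (a :: b :: l)) w)) := rfl
    rw [h1, h2]
    simp only [mul_add, Finset.sum_add_distrib]
    have h3 : ∑ a, ∑ b, η a b * ∑ c, T a c * t (c :: b :: w) =
        ∑ c, ∑ b, (Tᵀ * η) c b * t (c :: b :: w) := by
      simp only [Matrix.mul_apply, Matrix.transpose_apply, Finset.mul_sum, Finset.sum_mul]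
      have e1 : ∀ a, ∑ b, ∑ c, η a b * (T a c * t (c :: b :: w)) =
          ∑ c, ∑ b, T a c * η a b * t (c :: b :: w) := by
        intro a
        rw [Finset.sum_comm]
        exact Finset.sum_congr rfl fun c _ => Finset.sum_congr rfl fun b _ => by ring
      rw [Finset.sum_congr rfl fun a _ => e1 a, Finset.sum_comm]
      exact Finset.sum_congr rfl fun c _ => Finset.sum_comm
    have h4 : ∑ a, ∑ b, η a b * ∑ c, T b c * t (a :: c :: w) =
        ∑ a, ∑ c, (η * T) a c * t (a :: c :: w) := by
      simp only [Matrix.mul_apply, Finset.mul_sum, Finset.sum_mul]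
      refine Finset.sum_congr rfl fun a _ => ?_
      rw [Finset.sum_comm]
      exact Finset.sum_congr rfl fun c _ => Finset.sum_congr rfl fun b _ => by ring
    have h5 : (∑ c, ∑ b, (Tᵀ * η) c b * t (c :: b :: w)) +
        (∑ a, ∑ c, (η * T) a c * t (a :: c :: w)) = 0 := by
      rw [← Finset.sum_add_distrib]
      refine Finset.sum_eq_zero fun a _ => ?_
      rw [← Finset.sum_add_distrib]
      refine Finset.sum_eq_zero fun b _ => ?_
      rw [← add_mul, ← Matrix.add_apply, h]
      simp
    rw [h3, h4, ← add_assoc, h5, zero_add]
  | succ j ih =>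
    intro t w hw
    match w, hw with
    | a :: l, hw =>
      have hl : j ≤ l.length := by simpa using hw
      have h1 : der T (con η (j + 1) t) (a :: l) =
          ∑ b, T a b * con η j (fun l' => t (b :: l')) l +
            der T (con η j (fun l' => t (a :: l'))) l := rfl
      have h2 : con η (j + 1) (der T t) (a :: l) = con η j (fun l' =>
          ∑ b, T a b * t (b :: l') + der T (fun l'' => t (a :: l'')) l') l := rfl
      rw [h1, h2, con_add', con_sum' η j (fun b => T a b) (fun b l' => t (b :: l')), ih _ l hl]

private theorem der_tp (T : Matrix I I K) (n : ℕ) : ∀ (t t' : List I → K) (w : List I),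
    n ≤ w.length → der T (tp n t t') w = tp n (der T t) t' w + tp n t (der T t') w := by
  induction n with
  | zero =>
    intro t t' w _
    have h1 : tp 0 t t' = fun l => t [] * t' l := by
      funext l
      unfold tp
      rw [List.take_zero, List.drop_zero]
    have h2 : tp 0 (der T t) t' w = 0 := by
      unfold tp
      rw [List.take_zero]
      exact zero_mul _
    have h3 : tp 0 t (der T t') w = t [] * der T t' w := by
      unfold tp
      rw [List.take_zero, List.drop_zero]
    rw [h1, h2, h3, der_smul', zero_add]
  | succ n ih =>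
    intro t t' w hw
    match w, hw with
    | a :: l, hw =>
      have hl : n ≤ l.length := by simpa using hw
      have h1 : der T (tp (n + 1) t t') (a :: l) =
          ∑ b, T a b * (t (b :: l.take n) * t' (l.drop n)) +
            der T (tp n (fun l' => t (a :: l')) t') l := rfl
      have h2 : tp (n + 1) (der T t) t' (a :: l) =
          (∑ b, T a b * t (b :: l.take n) + der T (fun l' => t (a :: l')) (l.take n)) *
            t' (l.drop n) := rfl
      have h3 : tp (n + 1) t (der T t') (a :: l) = t (a :: l.take n) * der T t' (l.drop n) := rfl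
      have h4 := ih (fun l' => t (a :: l')) t' l hl
      have h5 : tp n (der T (fun l' => t (a :: l'))) t' l =
        der T (fun l' => t (a :: l')) (l.take n) * t' (l.drop n) := rfl
      have h6 : tp n (fun l' => t (a :: l')) (der T t') l =
        t (a :: l.take n) * der T t' (l.drop n) := rfl
      rw [h1, h2, h3, h4, h5, h6, add_mul, Finset.sum_mul]
      rw [Finset.sum_congr rfl fun b _ => (mul_assoc (T a b) (t (b :: l.take n)) _).symm]
      ring

private theorem der_two (T s : Matrix I I K) (h : T * s + s * Tᵀ = 0) (w : List I) :
    der T (two s) w = 0 := by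
  match w with
  | [] => rfl
  | [a] =>
    show ∑ b, T a b * 0 + 0 = (0 : K)
    simp
  | [a, b] =>
    show ∑ c, T a c * s c b + (∑ c, T b c * s a c + 0) = (0 : K)
    have h1 := congrFun (congrFun h a) b
    rw [Matrix.add_apply, Matrix.mul_apply, Matrix.mul_apply] at h1
    rw [add_zero]
    rw [Finset.sum_congr rfl fun c _ => mul_comm (T b c) (s a c)]
    exact h1
  | a :: b :: c :: l =>
    have h1 : der T (two s) (a :: b :: c :: l) = ∑ x, T a x * 0 + (∑ x, T b x * 0 +
        (∑ x, T c x * two s (a :: b :: x :: l) + der T (fun l' => two s (a :: b :: c :: l')) l)) := rfl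
    have h2 : (fun l' => two s (a :: b :: c :: l')) = fun _ => (0 : K) := by
      funext l'; rfl
    have h3 : ∑ x, T c x * two s (a :: b :: x :: l) = 0 :=
      Finset.sum_eq_zero fun x _ => mul_zero _
    rw [h1, h2, h3, der_zero']
    simp

end

theorem pf_DEC : T_DEC := by
  intro K _ I _ _ o η T hT
  exact ⟨fun j t w hw => der_sw o T hT j t w hw, fun h j t w hw => der_con η T h j t w hw,
    fun n t t' w hw => der_tp T n t t' w hw, fun s h w => der_two T s h w⟩

end Pool.Agent.H50.EV
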