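import Pool.Agent.H64.EV.Targets

/-!
# Complete intersections of even dimension (MP_fd35e1_ag): row TS1, the pairing of tensors on the
product with the symplectic plane in terms of the components
-/

set_option autoImplicit false
set_option linter.unusedSectionVars false

open Matrix Pool.Agent.H64.CC Pool.Agent.H2.NL Pool.Agent.H64.EV

namespace Pool.Agent.H50.EV

section

variable {K : Type} [Field K] {I : Type} [Fintype I] [DecidableEq I] (F : OForm K I)

private theorem sumv1 {J : Type} [Fintype J] (l : ℕ) (f : List J → K) :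
    ∑ u : List.Vector J (l + 1), f u.1 = ∑ a, ∑ u : List.Vector J l, f (a :: u.1) := by
  rw [← Fintype.sum_prod_type' (f := fun (a : J) (u : List.Vector J l) => f (a :: u.1))]
  refine (Fintype.sum_bijective (fun p : J × List.Vector J l => p.1 ::ᵥ p.2) ?_ _ _ ?_).symm
  · constructor
    · rintro ⟨a, u⟩ ⟨b, v⟩ h
      have h1 : a :: u.1 = b :: v.1 := congrArg Subtype.val h
      rw [List.cons.injEq] at h1
      exact Prod.ext h1.1 (Subtype.ext h1.2)
    · rintro ⟨w, hw⟩
      cases w with
      | nil => simp at hw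
      | cons a w => exact ⟨(a, ⟨w, by simpa using hw⟩), Subtype.ext rfl⟩
  · rintro ⟨a, u⟩
    rfl

private theorem sumv0 {J : Type} [Fintype J] (f : List J → K) :
    ∑ v : List.Vector J 0, f v.1 = f [] := by
  rw [Fintype.sum_eq_single (List.Vector.nil : List.Vector J 0)]
  · rfl
  intro v hv
  exact absurd (Subtype.ext (List.length_eq_zero_iff.1 v.2)) hv

private theorem OPr_congr (n : ℕ) : ∀ (f f' g g' : List I → K),
    (∀ w, w.length = n → f w = f' w) → (∀ w, w.length = n → g w = g' w) →
    F.Pr n f g = F.Pr n f' g' := by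
  induction n with
  | zero =>
    intro f f' g g' hf hg
    show f [] * g [] = f' [] * g' []
    rw [hf [] rfl, hg [] rfl]
  | succ n ih =>
    intro f f' g g' hf hg
    show ∑ a, F.c a * F.Pr n (fun l => f (a :: l)) (fun l => g (F.st a :: l)) =
      ∑ a, F.c a * F.Pr n (fun l => f' (a :: l)) (fun l => g' (F.st a :: l))
    refine Finset.sum_congr rfl fun a _ => ?_
    rw [ih (fun l => f (a :: l)) (fun l => f' (a :: l)) (fun l => g (F.st a :: l))
      (fun l => g' (F.st a :: l)) (fun w hw => hf _ (by simp [hw]))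
      (fun w hw => hg _ (by simp [hw]))]

private theorem OPr_smul (n : ℕ) : ∀ (x y : K) (f g : List I → K),
    F.Pr n (fun w => x * f w) (fun w => y * g w) = x * y * F.Pr n f g := by
  induction n with
  | zero =>
    intro x y f g
    show x * f [] * (y * g []) = x * y * (f [] * g [])
    ring
  | succ n ih =>
    intro x y f g
    show ∑ a, F.c a * F.Pr n (fun l => x * f (a :: l)) (fun l => y * g (F.st a :: l)) =
      x * y * ∑ a, F.c a * F.Pr n (fun l => f (a :: l)) (fun l => g (F.st a :: l))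
    rw [Finset.mul_sum]
    refine Finset.sum_congr rfl fun a _ => ?_
    rw [ih x y (fun l => f (a :: l)) (fun l => g (F.st a :: l))]
    ring

private theorem sg_ne (p : Bool) : sg K p ≠ 0 := by
  unfold sg
  split_ifs
  · exact neg_ne_zero.2 one_ne_zero
  · exact one_ne_zero

/-- one letter -/
private theorem one_letter (i : ℕ) (a : I) (s : Bool) :
    F.tl.c (a, s) = (if s = true then -1 else 1) * (F.c a *
      ((sg K (F.o a) * (F.lam i (a, s))⁻¹) * (F.lam i (F.st a, !s))⁻¹)) := by
  have hp : F.lam i (a, s) * F.lam i (F.st a, !s) = if s = true then F.c a else F.c (F.st a) := by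
    have h1 : sg K (F.o a) ^ i * sg K (F.o a) ^ i = 1 := by
      rw [← mul_pow, sg_mul_self, one_pow]
    unfold OForm.lam
    simp only [F.o_st, F.st_st]
    cases s
    · simp only [Bool.not_false, if_true, if_neg Bool.false_ne_true]
      linear_combination (F.c (F.st a)) * h1
    · simp only [Bool.not_true, if_true, if_neg Bool.false_ne_true]
      linear_combination (F.c a) * h1
  have e : (F.c a * ((sg K (F.o a) * (F.lam i (a, s))⁻¹) * (F.lam i (F.st a, !s))⁻¹)) =
      F.c a * sg K (F.o a) * (F.lam i (a, s) * F.lam i (F.st a, !s))⁻¹ := by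
    rw [mul_inv]; ring
  rw [e, hp]
  have hc := F.c_ne a
  have hs := sg_ne (K := K) (F.o a)
  cases s
  · rw [if_neg Bool.false_ne_true, if_neg Bool.false_ne_true, one_mul, F.c_st]
    show (if F.o a = false ∧ false = true then (-1 : K) else 1) = _
    rw [if_neg (by simp), mul_comm (F.c a), mul_inv_cancel₀ (mul_ne_zero hs hc)]
  · rw [if_pos rfl, if_pos rfl]
    show (if F.o a = false ∧ true = true then (-1 : K) else 1) = _
    have h2 : F.c a * sg K (F.o a) * (F.c a)⁻¹ = sg K (F.o a) := by field_simp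
    rw [h2]
    unfold sg
    cases F.o a <;> simp

private theorem main (n : ℕ) : ∀ (i : ℕ) (t t' : List (I × Bool) → K),
    Pr F.tl n t t' = ∑ σ : List.Vector Bool n, (-1) ^ (σ.1.count true) *
      F.Pr n (fun w => sgw K F.o w * ((F.lw i (w.zip σ.1))⁻¹ * t (w.zip σ.1)))
        (fun w => (F.lw i (w.zip (σ.1.map not)))⁻¹ * t' (w.zip (σ.1.map not))) := by
  induction n with
  | zero =>
    intro i t t'
    rw [sumv0 fun σ => (-1) ^ (σ.count true) *
      F.Pr 0 (fun w => sgw K F.o w * ((F.lw i (w.zip σ))⁻¹ * t (w.zip σ)))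
        (fun w => (F.lw i (w.zip (σ.map not)))⁻¹ * t' (w.zip (σ.map not)))]
    show t [] * t' [] = (-1) ^ 0 * ((1 * ((1 : K)⁻¹ * t [])) * ((1 : K)⁻¹ * t' []))
    simp
  | succ n ih =>
    intro i t t'
    rw [sumv1 n fun σ => (-1) ^ (σ.count true) *
      F.Pr (n + 1) (fun w => sgw K F.o w * ((F.lw i (w.zip σ))⁻¹ * t (w.zip σ)))
        (fun w => (F.lw i (w.zip (σ.map not)))⁻¹ * t' (w.zip (σ.map not)))]
    have h1 : Pr F.tl (n + 1) t t' = ∑ x : I × Bool, F.tl.c x *
        Pr F.tl n (fun l => t (x :: l)) (fun l => t' (F.tl.st x :: l)) := rfl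
    rw [h1, Fintype.sum_prod_type_right]
    refine Finset.sum_congr rfl fun s _ => ?_
    have h2 : ∀ a, F.tl.c (a, s) * Pr F.tl n (fun l => t ((a, s) :: l))
        (fun l => t' (F.tl.st (a, s) :: l)) = ∑ σ : List.Vector Bool n, F.tl.c (a, s) *
        ((-1) ^ (σ.1.count true) *
        F.Pr n (fun w => sgw K F.o w * ((F.lw (i + 1) (w.zip σ.1))⁻¹ * t ((a, s) :: w.zip σ.1)))
          (fun w => (F.lw (i + 1) (w.zip (σ.1.map not)))⁻¹ *
            t' ((F.st a, !s) :: w.zip (σ.1.map not)))) := by
      intro a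
      rw [ih (i + 1) (fun l => t ((a, s) :: l)) (fun l => t' (F.tl.st (a, s) :: l)),
        Finset.mul_sum]
      rfl
    rw [Finset.sum_congr rfl fun a _ => h2 a, Finset.sum_comm]
    refine Finset.sum_congr rfl fun σ _ => ?_
    have h3 : F.Pr (n + 1) (fun w => sgw K F.o w * ((F.lw i (w.zip (s :: σ.1)))⁻¹ *
          t (w.zip (s :: σ.1))))
        (fun w => (F.lw i (w.zip ((s :: σ.1).map not)))⁻¹ * t' (w.zip ((s :: σ.1).map not))) =
        ∑ a, F.c a * F.Pr n
          (fun w => (sg K (F.o a) * sgw K F.o w) *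
            ((F.lam i (a, s) * F.lw (i + 1) (w.zip σ.1))⁻¹ * t ((a, s) :: w.zip σ.1)))
          (fun w => (F.lam i (F.st a, !s) * F.lw (i + 1) (w.zip (σ.1.map not)))⁻¹ *
            t' ((F.st a, !s) :: w.zip (σ.1.map not))) := rfl
    rw [h3, Finset.mul_sum]
    refine Finset.sum_congr rfl fun a _ => ?_
    have h4 : F.Pr n
          (fun w => (sg K (F.o a) * sgw K F.o w) *
            ((F.lam i (a, s) * F.lw (i + 1) (w.zip σ.1))⁻¹ * t ((a, s) :: w.zip σ.1)))
          (fun w => (F.lam i (F.st a, !s) * F.lw (i + 1) (w.zip (σ.1.map not)))⁻¹ *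
            t' ((F.st a, !s) :: w.zip (σ.1.map not))) =
        (sg K (F.o a) * (F.lam i (a, s))⁻¹) * (F.lam i (F.st a, !s))⁻¹ *
        F.Pr n (fun w => sgw K F.o w * ((F.lw (i + 1) (w.zip σ.1))⁻¹ * t ((a, s) :: w.zip σ.1)))
          (fun w => (F.lw (i + 1) (w.zip (σ.1.map not)))⁻¹ *
            t' ((F.st a, !s) :: w.zip (σ.1.map not))) := by
      rw [← OPr_smul]
      refine OPr_congr F n _ _ _ _ (fun w _ => ?_) (fun w _ => ?_)
      · rw [mul_inv]; ring
      · rw [mul_inv]; ring
    have h5 : ((-1 : K)) ^ ((s :: σ.1).count true) =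
        (if s = true then -1 else 1) * (-1) ^ (σ.1.count true) := by
      cases s
      · simp
      · simp [pow_succ]
    rw [h4, h5, one_letter F i a s]
    ring

private theorem sgw_even (w : List I) : Even (odds F.o w) → sgw K F.o w = 1 := by
  have h : sgw K F.o w = (-1) ^ (odds F.o w) := by
    induction w with
    | nil => exact (pow_zero (-1 : K)).symm
    | cons a w ih =>
      have h1 : sgw K F.o (a :: w) = sg K (F.o a) * sgw K F.o w := rfl
      rw [h1, ih]
      unfold odds sg
      cases h2 : F.o a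
      · rw [List.filter_cons_of_neg (by simp [h2])]
        simp
      · rw [List.filter_cons_of_pos h2, List.length_cons, pow_succ]
        simp
  intro he
  rw [h, he.neg_one_pow]

end

theorem pf_TS1 : T_TS1 := by
  intro K _ I _ _ F n t t' ht
  rw [main F n 0 t t']
  refine Finset.sum_congr rfl fun σ _ => ?_
  congr 1
  refine OPr_congr F n _ _ _ _ (fun w hw => ?_) (fun w hw => rfl)
  show sgw K F.o w * ((F.lw 0 (w.zip σ.1))⁻¹ * t (w.zip σ.1)) =
    (F.lw 0 (w.zip σ.1))⁻¹ * t (w.zip σ.1)
  by_cases h0 : t (w.zip σ.1) = 0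
  · rw [h0]; ring
  · have hl : (w.zip σ.1).length = n := by
      rw [List.length_zip, hw, σ.2, min_self]
    have h1 := ht _ hl h0
    have h2 : (w.zip σ.1).map Prod.fst = w := by
      rw [← List.unzip_fst, List.unzip_zip (by rw [hw, σ.2])]
    rw [h2] at h1
    rw [sgw_even F w h1, one_mul]

end Pool.Agent.H50.EV
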